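import Mathlib

/-!
# Edges of polyhedra given by inequalities: the next vertex of the simplex method

`Poly a b = {x | ∀ i, a i ⬝ᵥ x ≤ b i}`.  At a nondegenerate vertex `x` whose tight rows are
`a (s k)`, `k : Fin n`, every edge leaves exactly one of the tight rows, and it ends in the point
which is determined by the ratio test.
-/

namespace Pool.Agent.H38.Mono

open Set

variable {n N : ℕ}

/-- The polyhedron `{x | a i · x ≤ b i for all i}`. -/
def Poly (a : Fin N → Fin n → ℝ) (b : Fin N → ℝ) : Set (Fin n → ℝ) :=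
  {x | ∀ i, a i ⬝ᵥ x ≤ b i}

/-- `x` is a point of the polyhedron whose tight rows are exactly the `a (s k)`, and these rows
have trivial common kernel. -/
structure Vtx (a : Fin N → Fin n → ℝ) (b : Fin N → ℝ) (s : Fin n → Fin N) (x : Fin n → ℝ) :
    Prop where
  mem : x ∈ Poly a b
  tight : ∀ k, a (s k) ⬝ᵥ x = b (s k)
  slack : ∀ i, (∀ k, s k ≠ i) → a i ⬝ᵥ x < b i
  ker : ∀ d, (∀ k, a (s k) ⬝ᵥ d = 0) → d = 0

variable {a : Fin N → Fin n → ℝ} {b : Fin N → ℝ} {s s' : Fin n → Fin N} {x y w : Fin n → ℝ}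

/-- Dual directions exist. -/
theorem exists_dir (hk : ∀ d, (∀ k, a (s k) ⬝ᵥ d = 0) → d = 0) (v : Fin n → ℝ) :
    ∃ δ, ∀ k, a (s k) ⬝ᵥ δ = v k := by
  let L : (Fin n → ℝ) →ₗ[ℝ] (Fin n → ℝ) := Matrix.mulVecLin (Matrix.of fun k => a (s k))
  have hL : ∀ d k, L d k = a (s k) ⬝ᵥ d := fun d k => rfl
  have hinj : Function.Injective L := by
    rw [← LinearMap.ker_eq_bot, LinearMap.ker_eq_bot']
    intro d hd
    exact hk d (fun k => by rw [← hL, hd]; rfl)
  obtain ⟨δ, hδ⟩ := (LinearMap.injective_iff_surjective.1 hinj) v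
  exact ⟨δ, fun k => by rw [← hL, hδ]⟩

/-- Every edge at a nondegenerate vertex leaves exactly one of its tight rows. -/
theorem Vtx.edge (h : Vtx a b s x) (hy : y ∈ Poly a b) (hxy : x ≠ y)
    (he : IsExtreme ℝ (Poly a b) (segment ℝ x y)) :
    ∃ k, a (s k) ⬝ᵥ y < b (s k) ∧ ∀ j, j ≠ k → a (s j) ⬝ᵥ y = b (s j) := by
  obtain ⟨k, hk⟩ : ∃ k, a (s k) ⬝ᵥ y < b (s k) := by
    by_contra hcon
    push Not at hcon
    apply hxy
    have : y - x = 0 := h.ker _ (fun k => by
      rw [dotProduct_sub, h.tight k, le_antisymm (hy (s k)) (hcon k), sub_self])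
    exact (sub_eq_zero.1 this).symm
  refine ⟨k, hk, fun j hjk => ?_⟩
  by_contra hj
  have hj' : a (s j) ⬝ᵥ y < b (s j) := lt_of_le_of_ne (hy (s j)) hj
  obtain ⟨e1, he1⟩ := exists_dir h.ker (fun i => if i = k then a (s k) ⬝ᵥ y - b (s k) else 0)
  set e2 := (y - x) - e1 with he2
  have h1 : ∀ᶠ ε : ℝ in nhdsWithin 0 (Ioi 0), ∀ i, (∀ k, s k ≠ i) →
      a i ⬝ᵥ (x + (2 * ε) • e1) < b i ∧ a i ⬝ᵥ (x + (2 * ε) • e2) < b i := by
    rw [Filter.eventually_all]
    intro i
    by_cases hi : ∀ k, s k ≠ i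
    · have hs := h.slack i hi
      have hc : ∀ e : Fin n → ℝ, ∀ᶠ ε : ℝ in nhdsWithin 0 (Ioi 0),
          a i ⬝ᵥ (x + (2 * ε) • e) < b i := by
        intro e
        apply Filter.Eventually.filter_mono nhdsWithin_le_nhds
        have hcont : Continuous (fun ε : ℝ => a i ⬝ᵥ (x + (2 * ε) • e)) := by
          have : (fun ε : ℝ => a i ⬝ᵥ (x + (2 * ε) • e)) =
              fun ε : ℝ => a i ⬝ᵥ x + 2 * ε * (a i ⬝ᵥ e) := by
            funext ε
            rw [dotProduct_add, dotProduct_smul, smul_eq_mul]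
          rw [this]
          fun_prop
        exact hcont.continuousAt.eventually_lt continuousAt_const (by simpa using hs)
      filter_upwards [hc e1, hc e2] with ε h1 h2 _
      exact ⟨h1, h2⟩
    · exact Filter.Eventually.of_forall (fun ε hc => absurd hc hi)
  have h2 : ∀ᶠ ε : ℝ in nhdsWithin 0 (Ioi 0), ε < 1 :=
    Filter.Eventually.filter_mono nhdsWithin_le_nhds (eventually_lt_nhds one_pos)
  have h3 : ∀ᶠ ε : ℝ in nhdsWithin 0 (Ioi 0), 0 < ε := eventually_mem_nhdsWithin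
  obtain ⟨ε, hε1, hε2, hε3⟩ := (h1.and (h2.and h3)).exists
  have hpoly : ∀ e : Fin n → ℝ, (∀ i, a (s i) ⬝ᵥ e ≤ 0) →
      (∀ i, (∀ k, s k ≠ i) → a i ⬝ᵥ (x + (2 * ε) • e) < b i) → x + (2 * ε) • e ∈ Poly a b := by
    intro e he hsl i
    by_cases hi : ∀ k, s k ≠ i
    · exact (hsl i hi).le
    · push Not at hi
      obtain ⟨q, rfl⟩ := hi
      rw [dotProduct_add, dotProduct_smul, smul_eq_mul, h.tight q]
      have := mul_nonneg (by positivity : (0:ℝ) ≤ 2 * ε) (neg_nonneg.2 (he q))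
      nlinarith
  have hp : x + (2 * ε) • e1 ∈ Poly a b := by
    apply hpoly _ _ (fun i hi => (hε1 i hi).1)
    intro i
    rw [he1 i]
    split_ifs
    · linarith
    · exact le_refl _
  have hq : x + (2 * ε) • e2 ∈ Poly a b := by
    apply hpoly _ _ (fun i hi => (hε1 i hi).2)
    intro i
    rw [he2, dotProduct_sub, dotProduct_sub, he1 i, h.tight i]
    split_ifs with hik
    · subst hik; linarith
    · have := hy (s i); linarith
  have hz : x + ε • (y - x) ∈ segment ℝ x y := by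
    rw [segment_eq_image']
    exact ⟨ε, ⟨hε3.le, hε2.le⟩, rfl⟩
  have hz' : x + ε • (y - x) ∈ openSegment ℝ (x + (2 * ε) • e1) (x + (2 * ε) • e2) := by
    refine ⟨1/2, 1/2, by norm_num, by norm_num, by norm_num, ?_⟩
    rw [he2]
    ext i
    simp only [Pi.add_apply, Pi.smul_apply, Pi.sub_apply, smul_eq_mul]
    ring
  have hmem := he.2 hp hq hz hz'
  rw [segment_eq_image'] at hmem
  obtain ⟨t, ⟨ht0, ht1⟩, ht⟩ := hmem
  have ht' : x + t • (y - x) = x + (2 * ε) • e1 := ht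
  have e3 := congrArg (fun v => a (s j) ⬝ᵥ v) ht'
  simp only [dotProduct_add, dotProduct_smul, dotProduct_sub, smul_eq_mul, he1 j, if_neg hjk,
    h.tight j] at e3
  have ht00 : t = 0 := by
    have : t * (a (s j) ⬝ᵥ y - b (s j)) = 0 := by linarith
    rcases mul_eq_zero.1 this with h0 | h0
    · exact h0
    · linarith
  rw [ht00] at ht'
  have e4 := congrArg (fun v => a (s k) ⬝ᵥ v) ht'
  simp only [dotProduct_add, dotProduct_smul, smul_eq_mul, he1 k, if_true, zero_mul] at e4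
  have : (2 * ε) * (a (s k) ⬝ᵥ y - b (s k)) = 0 := by linarith
  rcases mul_eq_zero.1 this with h0 | h0
  · linarith
  · linarith

/-- The other end of an edge is determined by the ratio test. -/
theorem Vtx.next_eq (h : Vtx a b s x) (hy : y ∈ (Poly a b).extremePoints ℝ) {k : Fin n}
    (hyk : a (s k) ⬝ᵥ y < b (s k)) (hyj : ∀ j, j ≠ k → a (s j) ⬝ᵥ y = b (s j))
    (hw : w ∈ Poly a b) (hwk : a (s k) ⬝ᵥ w < b (s k))
    (hwj : ∀ j, j ≠ k → a (s j) ⬝ᵥ w = b (s j)) {r : Fin N}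
    (hr : a r ⬝ᵥ w = b r) (hrx : a r ⬝ᵥ x < b r) : y = w := by
  set μ := b (s k) - a (s k) ⬝ᵥ w with hμ
  set ν := b (s k) - a (s k) ⬝ᵥ y with hν
  have hμ0 : 0 < μ := by linarith
  have hν0 : 0 < ν := by linarith
  set t := ν / μ with ht
  have ht0 : 0 < t := div_pos hν0 hμ0
  have htμ : t * μ = ν := div_mul_cancel₀ _ hμ0.ne'
  have hyx : y - x - t • (w - x) = 0 := by
    apply h.ker
    intro j
    rw [dotProduct_sub, dotProduct_smul, dotProduct_sub, dotProduct_sub, h.tight j, smul_eq_mul]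
    by_cases hj : j = k
    · subst hj
      have : t * (a (s j) ⬝ᵥ w - b (s j)) = -ν := by rw [← htμ, hμ]; ring
      rw [this, hν]; ring
    · rw [hyj j hj, hwj j hj]; ring
  have hyx' : y = x + t • (w - x) := by
    have := sub_eq_zero.1 hyx
    rw [← this]; abel
  have hyr : a r ⬝ᵥ x + t * (a r ⬝ᵥ w - a r ⬝ᵥ x) ≤ b r := by
    have := hy.1 r
    rw [hyx', dotProduct_add, dotProduct_smul, dotProduct_sub, smul_eq_mul] at this
    exact this
  have ht1 : t ≤ 1 := by
    rw [hr] at hyr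
    by_contra hcon
    push Not at hcon
    nlinarith
  rcases ht1.lt_or_eq with ht1 | ht1
  · exfalso
    have hseg : y ∈ openSegment ℝ x w := by
      rw [openSegment_eq_image']
      exact ⟨t, ⟨ht0, ht1⟩, hyx'.symm⟩
    have hx : x = y := (mem_extremePoints.1 hy).2 x h.mem w hw hseg |>.1
    have := h.tight k
    rw [hx] at this
    linarith
  · rw [hyx', ht1, one_smul]; abel

/-- The kernel condition is passed on to the neighbour. -/
theorem Vtx.ker_next (h : Vtx a b s x) {k : Fin n}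
    (hwk : a (s k) ⬝ᵥ w < b (s k))
    (hwj : ∀ j, j ≠ k → a (s j) ⬝ᵥ w = b (s j)) (hs : ∀ j, j ≠ k → ∃ i, s' i = s j)
    {i₀ : Fin n} (hr : a (s' i₀) ⬝ᵥ w = b (s' i₀)) (hrx : a (s' i₀) ⬝ᵥ x < b (s' i₀)) :
    ∀ d, (∀ i, a (s' i) ⬝ᵥ d = 0) → d = 0 := by
  intro d hd
  set μ := b (s k) - a (s k) ⬝ᵥ w with hμ
  have hμ0 : 0 < μ := by linarith
  have hdj : ∀ j, j ≠ k → a (s j) ⬝ᵥ d = 0 := fun j hj => by
    obtain ⟨i, hi⟩ := hs j hj
    rw [← hi]; exact hd i
  set τ := (a (s k) ⬝ᵥ d) / μ with hτ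
  have hτμ : τ * μ = a (s k) ⬝ᵥ d := div_mul_cancel₀ _ hμ0.ne'
  have h0 : d + τ • (w - x) = 0 := by
    apply h.ker
    intro j
    rw [dotProduct_add, dotProduct_smul, dotProduct_sub, h.tight j, smul_eq_mul]
    by_cases hj : j = k
    · subst hj
      rw [← hτμ, hμ]; ring
    · rw [hwj j hj, hdj j hj]; ring
  have h1 := congrArg (fun v => a (s' i₀) ⬝ᵥ v) h0
  simp only [dotProduct_add, dotProduct_smul, dotProduct_sub, smul_eq_mul, hd i₀, hr,
    dotProduct_zero] at h1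
  have h2 : τ = 0 := by
    have : τ * (b (s' i₀) - a (s' i₀) ⬝ᵥ x) = 0 := by linarith
    rcases mul_eq_zero.1 this with h3 | h3
    · exact h3
    · linarith
  rw [h2, zero_smul, add_zero] at h0
  exact h0

/-- A row with nonnegative reduced cost cannot be left improvingly. -/
theorem Vtx.not_improving (h : Vtx a b s x) {k : Fin n} {c lam : Fin n → ℝ}
    (hc : ∀ d, c ⬝ᵥ d = ∑ j, lam j * (a (s j) ⬝ᵥ d)) (hlam : 0 ≤ lam k)
    (hyk : a (s k) ⬝ᵥ y < b (s k)) (hyj : ∀ j, j ≠ k → a (s j) ⬝ᵥ y = b (s j)) :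
    c ⬝ᵥ y ≤ c ⬝ᵥ x := by
  have h1 : c ⬝ᵥ (y - x) = lam k * (a (s k) ⬝ᵥ y - b (s k)) := by
    rw [hc, Finset.sum_eq_single k]
    · rw [dotProduct_sub, h.tight k]
    · intro j _ hj
      rw [dotProduct_sub, h.tight j, hyj j hj, sub_self, mul_zero]
    · intro hk; exact absurd (Finset.mem_univ k) hk
  rw [dotProduct_sub] at h1
  nlinarith

/-- A row with negative reduced cost leads to better points. -/
theorem Vtx.improving (h : Vtx a b s x) {k : Fin n} {c lam : Fin n → ℝ}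
    (hc : ∀ d, c ⬝ᵥ d = ∑ j, lam j * (a (s j) ⬝ᵥ d)) (hlam : lam k < 0)
    (hyk : a (s k) ⬝ᵥ y < b (s k)) (hyj : ∀ j, j ≠ k → a (s j) ⬝ᵥ y = b (s j)) :
    c ⬝ᵥ x < c ⬝ᵥ y := by
  have h1 : c ⬝ᵥ (y - x) = lam k * (a (s k) ⬝ᵥ y - b (s k)) := by
    rw [hc, Finset.sum_eq_single k]
    · rw [dotProduct_sub, h.tight k]
    · intro j _ hj
      rw [dotProduct_sub, h.tight j, hyj j hj, sub_self, mul_zero]
    · intro hk; exact absurd (Finset.mem_univ k) hk
  rw [dotProduct_sub] at h1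
  nlinarith

/-- A point which is tight at all rows of a vertex and has only them tight is an extreme point. -/
theorem Vtx.extreme (h : Vtx a b s x) : x ∈ (Poly a b).extremePoints ℝ := by
  rw [mem_extremePoints]
  refine ⟨h.mem, fun p hp q hq hx => ?_⟩
  have key : ∀ p ∈ Poly a b, ∀ q ∈ Poly a b, x ∈ openSegment ℝ p q → p = x := by
    intro p hp q hq hx
    obtain ⟨u, v, hu, hv, huv, hx⟩ := hx
    have : p - x = 0 := by
      apply h.ker
      intro k
      have h1 := h.tight k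
      rw [← hx, dotProduct_add, dotProduct_smul, dotProduct_smul, smul_eq_mul, smul_eq_mul] at h1
      have h2 := hp (s k)
      have h3 := hq (s k)
      rw [dotProduct_sub, h.tight k]
      have h4 : u * (b (s k) - a (s k) ⬝ᵥ p) + v * (b (s k) - a (s k) ⬝ᵥ q) = 0 := by
        have : (u + v) * b (s k) = b (s k) := by rw [huv, one_mul]
        linarith
      have h5 := mul_nonneg hu.le (sub_nonneg.2 h2)
      have h6 := mul_nonneg hv.le (sub_nonneg.2 h3)
      have h7 : u * (b (s k) - a (s k) ⬝ᵥ p) = 0 := by linarith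
      rcases mul_eq_zero.1 h7 with h8 | h8
      · linarith
      · linarith
    exact sub_eq_zero.1 this
  exact ⟨key p hp q hq hx, key q hq p hp (by rwa [openSegment_symm])⟩

/-- Two vertices which differ in one tight row are joined by an edge. -/
theorem Vtx.isExtreme (h : Vtx a b s x) {k : Fin n} (hw : w ∈ Poly a b)
    (hwk : a (s k) ⬝ᵥ w < b (s k))
    (hwj : ∀ j, j ≠ k → a (s j) ⬝ᵥ w = b (s j)) {r : Fin N}
    (hr : a r ⬝ᵥ w = b r) (hrx : a r ⬝ᵥ x < b r) :
    IsExtreme ℝ (Poly a b) (segment ℝ x w) := by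
  have hconv : Convex ℝ (Poly a b) := by
    intro p hp q hq u v hu hv huv i
    rw [dotProduct_add, dotProduct_smul, dotProduct_smul, smul_eq_mul, smul_eq_mul]
    have h1 := mul_le_mul_of_nonneg_left (hp i) hu
    have h2 := mul_le_mul_of_nonneg_left (hq i) hv
    have : (u + v) * b i = b i := by rw [huv, one_mul]
    linarith
  have hsub : segment ℝ x w ⊆ Poly a b := hconv.segment_subset h.mem hw
  refine ⟨hsub, fun p hp q hq z hz hzpq => ?_⟩
  -- `z` is tight at all `s j`, `j ≠ k`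
  have hzj : ∀ j, j ≠ k → a (s j) ⬝ᵥ z = b (s j) := by
    intro j hj
    obtain ⟨u, v, hu, hv, huv, rfl⟩ := hz
    rw [dotProduct_add, dotProduct_smul, dotProduct_smul, smul_eq_mul, smul_eq_mul, h.tight j,
      hwj j hj, ← add_mul, huv, one_mul]
  have hpj : ∀ j, j ≠ k → a (s j) ⬝ᵥ p = b (s j) := by
    intro j hj
    obtain ⟨u, v, hu, hv, huv, hx⟩ := hzpq
    have h1 := hzj j hj
    rw [← hx, dotProduct_add, dotProduct_smul, dotProduct_smul, smul_eq_mul, smul_eq_mul] at h1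
    have h2 := hp (s j)
    have h3 := hq (s j)
    have h4 : u * (b (s j) - a (s j) ⬝ᵥ p) + v * (b (s j) - a (s j) ⬝ᵥ q) = 0 := by
      have : (u + v) * b (s j) = b (s j) := by rw [huv, one_mul]
      linarith
    have h5 := mul_nonneg hu.le (sub_nonneg.2 h2)
    have h6 := mul_nonneg hv.le (sub_nonneg.2 h3)
    have h7 : u * (b (s j) - a (s j) ⬝ᵥ p) = 0 := by linarith
    rcases mul_eq_zero.1 h7 with h8 | h8
    · linarith
    · linarith
  set μ := b (s k) - a (s k) ⬝ᵥ w with hμ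
  set ν := b (s k) - a (s k) ⬝ᵥ p with hν
  have hμ0 : 0 < μ := by linarith
  have hν0 : 0 ≤ ν := by have := hp (s k); linarith
  set t := ν / μ with ht
  have ht0 : 0 ≤ t := div_nonneg hν0 hμ0.le
  have htμ : t * μ = ν := div_mul_cancel₀ _ hμ0.ne'
  have hyx : p - x - t • (w - x) = 0 := by
    apply h.ker
    intro j
    rw [dotProduct_sub, dotProduct_smul, dotProduct_sub, dotProduct_sub, h.tight j, smul_eq_mul]
    by_cases hj : j = k
    · subst hj
      have : t * (a (s j) ⬝ᵥ w - b (s j)) = -ν := by rw [← htμ, hμ]; ring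
      rw [this, hν]; ring
    · rw [hpj j hj, hwj j hj]; ring
  have hyx' : p = x + t • (w - x) := by
    have := sub_eq_zero.1 hyx
    rw [← this]; abel
  have hyr : a r ⬝ᵥ x + t * (a r ⬝ᵥ w - a r ⬝ᵥ x) ≤ b r := by
    have := hp r
    rw [hyx', dotProduct_add, dotProduct_smul, dotProduct_sub, smul_eq_mul] at this
    exact this
  have ht1 : t ≤ 1 := by
    rw [hr] at hyr
    by_contra hcon
    push Not at hcon
    nlinarith
  rw [segment_eq_image']
  exact ⟨t, ⟨ht0, ht1⟩, hyx'.symm⟩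

end Pool.Agent.H38.Mono
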