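import Mathlib
import Pool.Agent.H38.MonoA

/-!
# A certificate for the lengths of the runs of the simplex method on one linear program
-/

namespace Pool.Agent.H38.Mono

open Set

/-- Dot product of lists of integers. -/
def dotL : List ℤ → List ℤ → ℤ
  | x :: xs, y :: ys => x * y + dotL xs ys
  | _, _ => 0

/-- Data of a vertex: the point is `num / den`, `s` lists the tight rows, `lam / ld` are the
multipliers with `c = ∑ (lam k / ld) a (s k)`, `nb` lists the neighbours for negative multipliers,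
and `h` is the number of steps that are still necessary. -/
structure VC where
  num : List ℤ
  den : ℤ
  s : List ℕ
  lam : List ℤ
  ld : ℤ
  nb : List ℕ
  h : ℕ

instance : Inhabited VC := ⟨⟨[], 1, [], [], 1, [], 0⟩⟩

/-- Data of a linear program: rows `a i · x ≤ b i` and objective `c`. -/
structure LPD where
  rows : List (List ℤ)
  rhs : List ℤ
  cost : List ℤ

variable (n N : ℕ)

def rowOK (D : LPD) (v : VC) (i : ℕ) : Bool :=
  if v.s.contains i then decide (dotL v.num (D.rows.getD i []) = D.rhs.getD i 0 * v.den)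
  else decide (dotL v.num (D.rows.getD i []) < D.rhs.getD i 0 * v.den)

def lamOK (D : LPD) (v : VC) (j : ℕ) : Bool :=
  decide (dotL v.lam (v.s.map fun i => (D.rows.getD i []).getD j 0) = v.ld * D.cost.getD j 0)

def edgeOK (T : List VC) (v : VC) (k : ℕ) : Bool :=
  let w := T.getD (v.nb.getD k 0) default
  decide (v.nb.getD k 0 < T.length) &&
  (List.range n).all (fun j => decide (j = k) || w.s.contains (v.s.getD j 0)) &&
  !(w.s.contains (v.s.getD k 0)) &&
  (List.range n).any (fun i => !(v.s.contains (w.s.getD i 0))) &&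
  decide (v.h ≤ w.h + 1)

def vtxOK (D : LPD) (T : List VC) (v : VC) : Bool :=
  decide (v.num.length = n) && decide (v.s.length = n) && decide (v.lam.length = n) &&
  decide (0 < v.den) && decide (0 < v.ld) &&
  v.s.all (fun i => decide (i < N)) &&
  (List.range N).all (rowOK D v) &&
  (List.range n).all (lamOK D v) &&
  (List.range n).all (fun k => decide (0 ≤ v.lam.getD k 0) || edgeOK n T v k) &&
  ((decide (v.h = 0) && (List.range n).all (fun k => decide (0 ≤ v.lam.getD k 0))) ||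
    (List.range n).any (fun k => decide (v.lam.getD k 0 < 0) &&
      decide ((T.getD (v.nb.getD k 0) default).h + 1 = v.h)))

variable {n N}

theorem dotL_eq : ∀ (n : ℕ) (l l' : List ℤ), l.length ≤ n →
    dotL l l' = ∑ j : Fin n, l.getD j 0 * l'.getD j 0 := by
  intro n
  induction n with
  | zero =>
    intro l l' hl
    rw [List.length_eq_zero_iff.1 (Nat.le_zero.1 hl)]
    simp [dotL]
  | succ n ih =>
    intro l l' hl
    cases l with
    | nil => simp [dotL]
    | cons x xs =>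
      cases l' with
      | nil => simp [dotL]
      | cons y ys =>
        rw [Fin.sum_univ_succ]
        simp only [dotL, Fin.val_zero, List.getD_cons_zero, Fin.val_succ, List.getD_cons_succ]
        rw [ih xs ys (by simpa using hl)]

/-- The rows as real vectors. -/
def LPD.a (D : LPD) : Fin N → Fin n → ℝ := fun i j => (((D.rows.getD i []).getD j 0 : ℤ) : ℝ)

def LPD.b (D : LPD) : Fin N → ℝ := fun i => ((D.rhs.getD i 0 : ℤ) : ℝ)

def LPD.c (D : LPD) : Fin n → ℝ := fun j => ((D.cost.getD j 0 : ℤ) : ℝ)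

/-- The point of a vertex. -/
noncomputable def VC.pt (v : VC) : Fin n → ℝ := fun j => ((v.num.getD j 0 : ℤ) : ℝ) / (v.den : ℝ)

/-- The tight rows of a vertex. -/
def VC.sF [NeZero N] (v : VC) : Fin n → Fin N := fun k => Fin.ofNat N (v.s.getD k 0)

variable [NeZero N] {D : LPD} {T : List VC} {v w : VC}

structure VC.Props (n N : ℕ) [NeZero N] (D : LPD) (T : List VC) (v : VC) : Prop where
  hs : v.s.length = n
  sF_val : ∀ k : Fin n, ((v.sF k : Fin N) : ℕ) = v.s.getD k 0
  tight : ∀ i : Fin N, (i : ℕ) ∈ v.s → D.a i ⬝ᵥ (v.pt : Fin n → ℝ) = D.b i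
  slack : ∀ i : Fin N, (i : ℕ) ∉ v.s → D.a i ⬝ᵥ (v.pt : Fin n → ℝ) < D.b i
  cost : ∀ d : Fin n → ℝ, D.c ⬝ᵥ d =
    ∑ k : Fin n, ((v.lam.getD k 0 : ℤ) / (v.ld : ℝ)) * (D.a (v.sF k : Fin N) ⬝ᵥ d)
  ldpos : (0 : ℝ) < v.ld

theorem VC.Props.mem (h : VC.Props n N D T v) : (v.pt : Fin n → ℝ) ∈ Poly (N := N) D.a D.b := by
  intro i
  by_cases hi : (i : ℕ) ∈ v.s
  · exact (h.tight i hi).le
  · exact (h.slack i hi).le

theorem mem_s_iff (hs : v.s.length = n) (x : ℕ) : x ∈ v.s ↔ ∃ k : Fin n, v.s.getD k 0 = x := by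
  rw [List.mem_iff_getElem]
  constructor
  · rintro ⟨i, hi, rfl⟩
    exact ⟨⟨i, hs ▸ hi⟩, List.getD_eq_getElem _ _ hi⟩
  · rintro ⟨k, rfl⟩
    have hk : (k : ℕ) < v.s.length := hs ▸ k.2
    exact ⟨k, hk, (List.getD_eq_getElem _ _ hk).symm⟩

theorem props_of_ok (h : vtxOK n N D T v = true) : VC.Props n N D T v := by
  simp only [vtxOK, Bool.and_eq_true, decide_eq_true_eq] at h
  obtain ⟨⟨⟨⟨⟨⟨⟨⟨⟨h1, h2⟩, h3⟩, h4⟩, h5⟩, h6⟩, h7⟩, h8⟩, h9⟩, h10⟩ := h
  have hden : (0 : ℝ) < v.den := by exact_mod_cast h4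
  have hld : (0 : ℝ) < v.ld := by exact_mod_cast h5
  have hdot : ∀ i : Fin N, D.a i ⬝ᵥ (v.pt : Fin n → ℝ) =
      ((dotL v.num (D.rows.getD i []) : ℤ) : ℝ) / v.den := by
    intro i
    rw [dotL_eq n _ _ h1.le, Int.cast_sum, Finset.sum_div]
    apply Finset.sum_congr rfl
    intro j _
    simp only [LPD.a, VC.pt, Int.cast_mul]
    ring
  have hrow : ∀ i : Fin N, rowOK D v i = true := by
    intro i
    exact (List.all_eq_true.1 h7) i (List.mem_range.2 i.2)
  have hsv : ∀ k : Fin n, ((v.sF k : Fin N) : ℕ) = v.s.getD k 0 := by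
    intro k
    have hk : v.s.getD k 0 ∈ v.s := (mem_s_iff h2 _).2 ⟨k, rfl⟩
    have := (List.all_eq_true.1 h6) _ hk
    simp only [decide_eq_true_eq] at this
    simp only [VC.sF, Fin.ofNat, Nat.mod_eq_of_lt this]
  refine ⟨h2, hsv, ?_, ?_, ?_, hld⟩
  · intro i hi
    have := hrow i
    rw [rowOK, if_pos (by simpa using hi), decide_eq_true_eq] at this
    rw [hdot, this, LPD.b, Int.cast_mul, mul_div_assoc, div_self hden.ne', mul_one]
  · intro i hi
    have := hrow i
    rw [rowOK, if_neg (by simpa using hi), decide_eq_true_eq] at this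
    rw [hdot, LPD.b, div_lt_iff₀ hden]
    exact_mod_cast this
  · intro d
    have hlam : ∀ j : Fin n, ∑ k : Fin n, ((v.lam.getD k 0 : ℤ) : ℝ) *
        (((D.rows.getD (v.s.getD k 0) []).getD j 0 : ℤ) : ℝ) = v.ld * D.c j := by
      intro j
      have := (List.all_eq_true.1 h8) j (List.mem_range.2 j.2)
      rw [lamOK, decide_eq_true_eq, dotL_eq n _ _ h3.le] at this
      have h' := congrArg (fun z : ℤ => (z : ℝ)) this
      simp only [Int.cast_sum, Int.cast_mul] at h'
      rw [LPD.c, ← h']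
      apply Finset.sum_congr rfl
      intro k _
      have hk : (k : ℕ) < v.s.length := h2 ▸ k.2
      have e1 : (v.s.map fun i => (D.rows.getD i []).getD (j : ℕ) 0).getD k 0 =
          (D.rows.getD (v.s.getD k 0) []).getD j 0 := by
        rw [List.getD_eq_getElem _ _ (by simpa using hk), List.getElem_map,
          List.getD_eq_getElem v.s _ hk]
      rw [e1]
    have hcj : ∀ j : Fin n, D.c j = ∑ k : Fin n, ((v.lam.getD k 0 : ℤ) / (v.ld : ℝ)) *
        D.a (v.sF k : Fin N) j := by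
      intro j
      have : D.c j = (∑ k : Fin n, ((v.lam.getD k 0 : ℤ) : ℝ) *
          (((D.rows.getD (v.s.getD k 0) []).getD j 0 : ℤ) : ℝ)) / v.ld := by
        rw [eq_div_iff hld.ne', mul_comm]
        exact (hlam j).symm
      rw [this, Finset.sum_div]
      apply Finset.sum_congr rfl
      intro k _
      rw [LPD.a, hsv k]
      ring
    simp only [dotProduct]
    calc ∑ j, D.c j * d j
        = ∑ j, ∑ k : Fin n, ((v.lam.getD k 0 : ℤ) / (v.ld : ℝ)) * (D.a (v.sF k : Fin N) j * d j) := by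
          apply Finset.sum_congr rfl
          intro j _
          rw [hcj j, Finset.sum_mul]
          apply Finset.sum_congr rfl
          intro k _
          ring
      _ = _ := by
          rw [Finset.sum_comm]
          apply Finset.sum_congr rfl
          intro k _
          rw [Finset.mul_sum]

theorem edge_of_ok (hw : ∀ w ∈ T, VC.Props n N D T w) (h : vtxOK n N D T v = true) (k : Fin n)
    (hk : v.lam.getD k 0 < 0) (hv : VC.Props n N D T v) :
    ∃ w ∈ T, w = T.getD (v.nb.getD k 0) default ∧ v.h ≤ w.h + 1 ∧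
      (∀ j : Fin n, j ≠ k → D.a (v.sF j : Fin N) ⬝ᵥ (w.pt : Fin n → ℝ) = D.b (v.sF j : Fin N)) ∧
      (∀ j : Fin n, j ≠ k → ∃ i : Fin n, (w.sF i : Fin N) = v.sF j) ∧
      D.a (v.sF k : Fin N) ⬝ᵥ (w.pt : Fin n → ℝ) < D.b (v.sF k : Fin N) ∧
      ∃ i₀ : Fin n, D.a (w.sF i₀ : Fin N) ⬝ᵥ (w.pt : Fin n → ℝ) = D.b (w.sF i₀ : Fin N) ∧
        D.a (w.sF i₀ : Fin N) ⬝ᵥ (v.pt : Fin n → ℝ) < D.b (w.sF i₀ : Fin N) := by
  simp only [vtxOK, Bool.and_eq_true, decide_eq_true_eq] at h
  obtain ⟨⟨⟨⟨⟨⟨⟨⟨⟨h1, h2⟩, h3⟩, h4⟩, h5⟩, h6⟩, h7⟩, h8⟩, h9⟩, h10⟩ := h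
  have h9k := (List.all_eq_true.1 h9) k (List.mem_range.2 k.2)
  rw [Bool.or_eq_true, decide_eq_true_eq] at h9k
  rcases h9k with h9k | h9k
  · exact absurd hk (not_lt.2 h9k)
  simp only [edgeOK, Bool.and_eq_true, decide_eq_true_eq] at h9k
  obtain ⟨⟨⟨⟨e1, e2⟩, e3⟩, e4⟩, e5⟩ := h9k
  set w := T.getD (v.nb.getD k 0) default with hwdef
  have hwT : w ∈ T := by
    rw [hwdef, List.getD_eq_getElem _ _ e1]
    exact List.getElem_mem e1
  have hwp := hw w hwT
  refine ⟨w, hwT, rfl, e5, ?_, ?_, ?_, ?_⟩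
  · intro j hj
    have := (List.all_eq_true.1 e2) j (List.mem_range.2 j.2)
    rw [Bool.or_eq_true, decide_eq_true_eq] at this
    rcases this with this | this
    · exact absurd (Fin.ext this) hj
    · apply hwp.tight
      rw [hv.sF_val]
      simpa using this
  · intro j hj
    have := (List.all_eq_true.1 e2) j (List.mem_range.2 j.2)
    rw [Bool.or_eq_true, decide_eq_true_eq] at this
    rcases this with this | this
    · exact absurd (Fin.ext this) hj
    · obtain ⟨i, hi⟩ := (mem_s_iff hwp.hs _).1 (by simpa using this : v.s.getD j 0 ∈ w.s)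
      refine ⟨i, Fin.ext ?_⟩
      rw [hwp.sF_val, hv.sF_val, hi]
  · apply hwp.slack
    rw [hv.sF_val]
    simpa using e3
  · obtain ⟨i, hi, hi'⟩ := List.any_eq_true.1 e4
    rw [List.mem_range] at hi
    refine ⟨⟨i, hi⟩, ?_, ?_⟩
    · apply hwp.tight
      rw [hwp.sF_val]
      exact (mem_s_iff hwp.hs _).2 ⟨⟨i, hi⟩, rfl⟩
    · apply hv.slack
      rw [hwp.sF_val]
      simpa using hi'

/-- `y` can come next after `x` in a run of the simplex method that maximises `c` over `P`: both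
are vertices of `P`, they are joined by an edge of `P`, and the objective increases. -/
def Pivot {n : ℕ} (P : Set (Fin n → ℝ)) (c : Fin n → ℝ) (x y : Fin n → ℝ) : Prop :=
  x ∈ P.extremePoints ℝ ∧ y ∈ P.extremePoints ℝ ∧ IsExtreme ℝ P (segment ℝ x y) ∧
    c ⬝ᵥ x < c ⬝ᵥ y

/-- The state of a run: a vertex of the table. -/
def Good (n N : ℕ) [NeZero N] (D : LPD) (T : List VC) (v : VC) (x : Fin n → ℝ) : Prop :=
  v ∈ T ∧ x = v.pt ∧ Vtx (N := N) D.a D.b v.sF x

theorem vtx_of (hv : VC.Props n N D T v)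
    (hker : ∀ d : Fin n → ℝ, (∀ k : Fin n, D.a (v.sF k : Fin N) ⬝ᵥ d = 0) → d = 0) :
    Vtx (N := N) D.a D.b v.sF (v.pt : Fin n → ℝ) := by
  refine ⟨hv.mem, ?_, ?_, hker⟩
  · intro k
    apply hv.tight
    rw [hv.sF_val]
    exact (mem_s_iff hv.hs _).2 ⟨k, rfl⟩
  · intro i hi
    apply hv.slack
    intro hmem
    obtain ⟨k, hk⟩ := (mem_s_iff hv.hs _).1 hmem
    exact hi k (Fin.ext (by rw [hv.sF_val, hk]))

/-- One step of a run stays in the table. -/
theorem Good.step (hT : ∀ v ∈ T, vtxOK n N D T v = true) {x y : Fin n → ℝ}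
    (h : Good n N D T v x) (hp : Pivot (Poly (N := N) D.a D.b) D.c x y) :
    ∃ w, Good n N D T w y ∧ v.h ≤ w.h + 1 := by
  obtain ⟨hvT, hx, hvx⟩ := h
  obtain ⟨hxe, hye, hseg, hlt⟩ := hp
  have hne : x ≠ y := by rintro rfl; exact lt_irrefl _ hlt
  have hprops : ∀ w ∈ T, VC.Props n N D T w := fun w hw => props_of_ok (hT w hw)
  have hv := hprops v hvT
  obtain ⟨k, hk, hkj⟩ := hvx.edge hye.1 hne hseg
  by_cases hl : v.lam.getD k 0 < 0
  · obtain ⟨w, hwT, -, hh, hj, hs, hwk, i₀, hi1, hi2⟩ := edge_of_ok hprops (hT v hvT) k hl hv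
    have hyw : y = w.pt := by
      rw [hx] at hvx
      exact hvx.next_eq hye hk hkj (hprops w hwT).mem hwk hj hi1 hi2
    refine ⟨w, ⟨hwT, hyw, ?_⟩, hh⟩
    rw [hyw]
    apply vtx_of (hprops w hwT)
    rw [hx] at hvx
    exact hvx.ker_next hwk hj hs hi1 hi2
  · exfalso
    push Not at hl
    have := hvx.not_improving hv.cost (k := k) (by
      apply div_nonneg _ hv.ldpos.le
      exact_mod_cast hl) hk hkj
    linarith

/-- A maximiser in the table has height zero. -/
theorem Good.h_eq_zero (hT : ∀ v ∈ T, vtxOK n N D T v = true) {x : Fin n → ℝ}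
    (h : Good n N D T v x) (hmax : ∀ z ∈ Poly (n := n) (N := N) D.a D.b, D.c ⬝ᵥ z ≤ D.c ⬝ᵥ x) :
    v.h = 0 := by
  obtain ⟨hvT, hx, hvx⟩ := h
  have hprops : ∀ w ∈ T, VC.Props n N D T w := fun w hw => props_of_ok (hT w hw)
  have hv := hprops v hvT
  have hok := hT v hvT
  have hok' := hok
  simp only [vtxOK, Bool.and_eq_true, Bool.or_eq_true, decide_eq_true_eq] at hok
  rcases hok.2 with h0 | h0
  · exact h0.1
  · exfalso
    obtain ⟨k, hk, hk'⟩ := List.any_eq_true.1 h0
    rw [List.mem_range] at hk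
    rw [Bool.and_eq_true, decide_eq_true_eq, decide_eq_true_eq] at hk'
    obtain ⟨w, hwT, -, hh, hj, hs, hwk, i₀, hi1, hi2⟩ := edge_of_ok hprops hok' ⟨k, hk⟩ hk'.1 hv
    have := hvx.improving hv.cost (k := ⟨k, hk⟩) (by
      apply div_neg_of_neg_of_pos _ hv.ldpos
      exact_mod_cast hk'.1) hwk hj
    linarith [hmax _ (hprops w hwT).mem]

/-- There is a step which lowers the height, unless the vertex is a maximiser. -/
theorem Good.exists_step (hT : ∀ v ∈ T, vtxOK n N D T v = true) {x : Fin n → ℝ}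
    (h : Good n N D T v x) (h0 : v.h ≠ 0) :
    ∃ w y, Good n N D T w y ∧ v.h = w.h + 1 ∧ Pivot (Poly (N := N) D.a D.b) D.c x y := by
  obtain ⟨hvT, hx, hvx⟩ := h
  have hprops : ∀ w ∈ T, VC.Props n N D T w := fun w hw => props_of_ok (hT w hw)
  have hv := hprops v hvT
  have hok := hT v hvT
  have hok' := hok
  simp only [vtxOK, Bool.and_eq_true, Bool.or_eq_true, decide_eq_true_eq] at hok
  rcases hok.2 with h1 | h1
  · exact absurd h1.1 h0
  · obtain ⟨k, hk, hk'⟩ := List.any_eq_true.1 h1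
    rw [List.mem_range] at hk
    rw [Bool.and_eq_true, decide_eq_true_eq, decide_eq_true_eq] at hk'
    obtain ⟨w, hwT, hw, hh, hj, hs, hwk, i₀, hi1, hi2⟩ := edge_of_ok hprops hok' ⟨k, hk⟩ hk'.1 hv
    subst hx
    have hwv : Vtx (N := N) D.a D.b w.sF (w.pt : Fin n → ℝ) :=
      vtx_of (hprops w hwT) (hvx.ker_next hwk hj hs hi1 hi2)
    refine ⟨w, w.pt, ⟨hwT, rfl, hwv⟩, ?_, hvx.extreme, hwv.extreme, ?_, ?_⟩
    · rw [hw]; exact hk'.2.symm
    · exact hvx.isExtreme (hprops w hwT).mem hwk hj hi1 hi2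
    · exact hvx.improving hv.cost (k := ⟨k, hk⟩) (by
        apply div_neg_of_neg_of_pos _ hv.ldpos
        exact_mod_cast hk'.1) hwk hj

/-- Vertices of height zero are maximisers. -/
theorem Good.max (hT : ∀ v ∈ T, vtxOK n N D T v = true) {x : Fin n → ℝ}
    (h : Good n N D T v x) (h0 : v.h = 0) :
    ∀ z ∈ Poly (n := n) (N := N) D.a D.b, D.c ⬝ᵥ z ≤ D.c ⬝ᵥ x := by
  obtain ⟨hvT, hx, hvx⟩ := h
  have hprops : ∀ w ∈ T, VC.Props n N D T w := fun w hw => props_of_ok (hT w hw)
  have hv := hprops v hvT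
  have hok := hT v hvT
  simp only [vtxOK, Bool.and_eq_true, Bool.or_eq_true, decide_eq_true_eq] at hok
  intro z hz
  have h1 : D.c ⬝ᵥ (z - x) ≤ 0 := by
    rcases hok.2 with h1 | h1
    · rw [hv.cost]
      apply Finset.sum_nonpos
      intro k _
      apply mul_nonpos_of_nonneg_of_nonpos
      · apply div_nonneg _ hv.ldpos.le
        have := (List.all_eq_true.1 h1.2) k (List.mem_range.2 k.2)
        rw [decide_eq_true_eq] at this
        exact_mod_cast this
      · rw [dotProduct_sub, hvx.tight k]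
        linarith [hz (v.sF k : Fin N)]
    · exfalso
      obtain ⟨k, hk, hk'⟩ := List.any_eq_true.1 h1
      rw [Bool.and_eq_true, decide_eq_true_eq, decide_eq_true_eq] at hk'
      omega
  rw [dotProduct_sub] at h1
  linarith

end Pool.Agent.H38.Mono
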