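import Mathlib
import Pool.Agent.H38.MonoB

/-!
# Products of linear programs
-/

namespace Pool.Agent.H38.Mono

open Set

variable {k n : ℕ}

/-- The `p`-th block of a vector. -/
def blk (x : Fin (k * n) → ℝ) (p : Fin k) : Fin n → ℝ := fun j => x (finProdFinEquiv (p, j))

/-- The vector with given blocks. -/
def mk (X : Fin k → Fin n → ℝ) : Fin (k * n) → ℝ :=
  fun i => X (finProdFinEquiv.symm i).1 (finProdFinEquiv.symm i).2

@[simp] theorem blk_mk (X : Fin k → Fin n → ℝ) : blk (mk X) = X := by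
  funext p j
  simp [blk, mk]

@[simp] theorem mk_blk (x : Fin (k * n) → ℝ) : mk (blk x) = x := by
  funext i
  change x (finProdFinEquiv ((finProdFinEquiv.symm i).1, (finProdFinEquiv.symm i).2)) = x i
  rw [Prod.mk.eta, Equiv.apply_symm_apply]

theorem ext_blk {x y : Fin (k * n) → ℝ} (h : ∀ p, blk x p = blk y p) : x = y := by
  rw [← mk_blk x, ← mk_blk y, funext h]

theorem blk_add (x y : Fin (k * n) → ℝ) (p : Fin k) : blk (x + y) p = blk x p + blk y p := rfl

theorem blk_sub (x y : Fin (k * n) → ℝ) (p : Fin k) : blk (x - y) p = blk x p - blk y p := rfl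

theorem blk_smul (u : ℝ) (x : Fin (k * n) → ℝ) (p : Fin k) : blk (u • x) p = u • blk x p := rfl

/-- The product of `k` copies of `P`. -/
def big (k : ℕ) (P : Set (Fin n → ℝ)) : Set (Fin (k * n) → ℝ) := {x | ∀ p, blk x p ∈ P}

/-- Replace a block. -/
def upd (x : Fin (k * n) → ℝ) (p : Fin k) (a : Fin n → ℝ) : Fin (k * n) → ℝ :=
  mk (Function.update (blk x) p a)

theorem blk_upd (x : Fin (k * n) → ℝ) (p : Fin k) (a : Fin n → ℝ) :
    blk (upd x p a) = Function.update (blk x) p a := blk_mk _

theorem blk_upd_self (x : Fin (k * n) → ℝ) (p : Fin k) (a : Fin n → ℝ) :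
    blk (upd x p a) p = a := by rw [blk_upd, Function.update_self]

theorem blk_upd_ne (x : Fin (k * n) → ℝ) {p q : Fin k} (a : Fin n → ℝ) (h : q ≠ p) :
    blk (upd x p a) q = blk x q := by rw [blk_upd, Function.update_of_ne h]

theorem dot_mk (c : Fin n → ℝ) (x : Fin (k * n) → ℝ) :
    mk (fun _ : Fin k => c) ⬝ᵥ x = ∑ p, c ⬝ᵥ blk x p := by
  simp only [dotProduct]
  rw [← finProdFinEquiv.sum_comp, Fintype.sum_prod_type]
  simp [mk, blk]

theorem upd_mem {P : Set (Fin n → ℝ)} {x : Fin (k * n) → ℝ} (hx : x ∈ big k P) (p : Fin k)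
    {a : Fin n → ℝ} (ha : a ∈ P) : upd x p a ∈ big k P := by
  intro q
  by_cases h : q = p
  · subst h; rwa [blk_upd_self]
  · rw [blk_upd_ne _ _ h]; exact hx q

theorem openSegment_upd {x : Fin (k * n) → ℝ} (p : Fin k) {a b c : Fin n → ℝ}
    (h : c ∈ openSegment ℝ a b) : upd x p c ∈ openSegment ℝ (upd x p a) (upd x p b) := by
  obtain ⟨u, v, hu, hv, huv, rfl⟩ := h
  refine ⟨u, v, hu, hv, huv, ext_blk fun q => ?_⟩
  rw [blk_add, blk_smul, blk_smul]
  by_cases hq : q = p
  · subst hq; simp only [blk_upd_self]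
  · simp only [blk_upd_ne _ _ hq]
    rw [← add_smul, huv, one_smul]

theorem blk_extreme {P : Set (Fin n → ℝ)} {x : Fin (k * n) → ℝ}
    (hx : x ∈ (big k P).extremePoints ℝ) (p : Fin k) : blk x p ∈ P.extremePoints ℝ := by
  rw [mem_extremePoints] at hx ⊢
  refine ⟨hx.1 p, fun a ha b hb hab => ?_⟩
  have hself : upd x p (blk x p) = x := by
    rw [upd, Function.update_eq_self, mk_blk]
  have := openSegment_upd (x := x) p hab
  rw [hself] at this
  have h := hx.2 _ (upd_mem hx.1 p ha) _ (upd_mem hx.1 p hb) this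
  constructor
  · rw [← blk_upd_self x p a, h.1]
  · rw [← blk_upd_self x p b, h.2]

theorem extreme_of_blk {P : Set (Fin n → ℝ)} {x : Fin (k * n) → ℝ}
    (hx : ∀ p, blk x p ∈ P.extremePoints ℝ) : x ∈ (big k P).extremePoints ℝ := by
  rw [mem_extremePoints]
  refine ⟨fun p => (hx p).1, fun a ha b hb hab => ?_⟩
  have key : ∀ p, blk a p = blk x p ∧ blk b p = blk x p := by
    intro p
    have := (mem_extremePoints.1 (hx p)).2 (blk a p) (ha p) (blk b p) (hb p) (by
      obtain ⟨u, v, hu, hv, huv, rfl⟩ := hab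
      exact ⟨u, v, hu, hv, huv, rfl⟩)
    exact this
  exact ⟨ext_blk fun p => (key p).1, ext_blk fun p => (key p).2⟩

theorem segment_blk {x y z : Fin (k * n) → ℝ} (h : z ∈ segment ℝ x y) (p : Fin k) :
    blk z p ∈ segment ℝ (blk x p) (blk y p) := by
  obtain ⟨u, v, hu, hv, huv, rfl⟩ := h
  exact ⟨u, v, hu, hv, huv, rfl⟩

theorem segment_of_blk {x y z : Fin (k * n) → ℝ} {p : Fin k} (hxy : ∀ q, q ≠ p → blk x q = blk y q)
    (hz : ∀ q, q ≠ p → blk z q = blk x q) (hp : blk z p ∈ segment ℝ (blk x p) (blk y p)) :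
    z ∈ segment ℝ x y := by
  obtain ⟨u, v, hu, hv, huv, h⟩ := hp
  refine ⟨u, v, hu, hv, huv, ext_blk fun q => ?_⟩
  rw [blk_add, blk_smul, blk_smul]
  by_cases hq : q = p
  · subst hq; exact h
  · rw [hz q hq, ← hxy q hq, ← add_smul, huv, one_smul]

/-- A pivot in the product is a pivot in one block. -/
theorem pivot_blk {P : Set (Fin n → ℝ)} {c : Fin n → ℝ} {x y : Fin (k * n) → ℝ}
    (h : Pivot (big k P) (mk fun _ => c) x y) :
    ∃ p, (∀ q, q ≠ p → blk x q = blk y q) ∧ Pivot P c (blk x p) (blk y p) := by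
  obtain ⟨hx, hy, hseg, hlt⟩ := h
  have hne : ∃ p, blk x p ≠ blk y p := by
    by_contra hcon
    push Not at hcon
    rw [ext_blk hcon] at hlt
    exact lt_irrefl _ hlt
  obtain ⟨p, hp⟩ := hne
  have hothers : ∀ q, q ≠ p → blk x q = blk y q := by
    intro q hq
    by_contra hq'
    -- swap the block `p`
    have hz1 : upd x p (blk y p) ∈ big k P := upd_mem hx.1 p (hy.1 p)
    have hz2 : upd y p (blk x p) ∈ big k P := upd_mem hy.1 p (hx.1 p)
    have hm : (1/2 : ℝ) • x + (1/2 : ℝ) • y ∈ segment ℝ x y :=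
      ⟨1/2, 1/2, by norm_num, by norm_num, by norm_num, rfl⟩
    have hm' : (1/2 : ℝ) • x + (1/2 : ℝ) • y ∈
        openSegment ℝ (upd x p (blk y p)) (upd y p (blk x p)) := by
      refine ⟨1/2, 1/2, by norm_num, by norm_num, by norm_num, ext_blk fun r => ?_⟩
      simp only [blk_add, blk_smul]
      by_cases hr : r = p
      · subst hr; simp only [blk_upd_self]; rw [add_comm]
      · simp only [blk_upd_ne _ _ hr]
    have := hseg.2 hz1 hz2 hm hm'
    obtain ⟨u, v, hu, hv, huv, he⟩ := this
    have h1 : blk (u • x + v • y) p = blk y p := by rw [he, blk_upd_self]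
    have h2 : blk (u • x + v • y) q = blk x q := by rw [he, blk_upd_ne _ _ hq]
    rw [blk_add, blk_smul, blk_smul] at h1 h2
    have hu' : u = 1 - v := by linarith
    have h3 : u • (blk x p - blk y p) = 0 := by
      have : v = 1 - u := by linarith
      rw [this, sub_smul, one_smul] at h1
      rw [smul_sub]
      have h4 : u • blk x p + (blk y p - u • blk y p) - blk y p = 0 := by rw [h1, sub_self]
      rw [← h4]; abel
    have h4 : v • (blk y q - blk x q) = 0 := by
      rw [hu', sub_smul, one_smul] at h2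
      rw [smul_sub]
      have h5 : blk x q - v • blk x q + v • blk y q - blk x q = 0 := by rw [h2, sub_self]
      rw [← h5]; abel
    rcases smul_eq_zero.1 h3 with h5 | h5
    · rcases smul_eq_zero.1 h4 with h6 | h6
      · linarith
      · exact hq' (sub_eq_zero.1 h6).symm
    · exact hp (sub_eq_zero.1 h5)
  refine ⟨p, hothers, blk_extreme hx p, blk_extreme hy p, ⟨?_, ?_⟩, ?_⟩
  · intro a ha
    have : upd x p a ∈ segment ℝ x y :=
      segment_of_blk hothers (fun q hq => blk_upd_ne _ _ hq) (by rwa [blk_upd_self])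
    have := hseg.1 this p
    rwa [blk_upd_self] at this
  · intro a ha b hb z hz hzab
    have h1 : upd x p z ∈ segment ℝ x y :=
      segment_of_blk hothers (fun q hq => blk_upd_ne _ _ hq) (by rwa [blk_upd_self])
    have h2 := hseg.2 (upd_mem hx.1 p ha) (upd_mem hx.1 p hb) h1 (openSegment_upd p hzab)
    have := segment_blk h2 p
    rwa [blk_upd_self] at this
  · rw [dot_mk, dot_mk, ← Finset.add_sum_erase _ _ (Finset.mem_univ p),
      ← Finset.add_sum_erase Finset.univ (fun q => c ⬝ᵥ blk y q) (Finset.mem_univ p)] at hlt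
    have : ∑ q ∈ Finset.univ.erase p, c ⬝ᵥ blk x q = ∑ q ∈ Finset.univ.erase p, c ⬝ᵥ blk y q :=
      Finset.sum_congr rfl fun q hq => by rw [hothers q (Finset.ne_of_mem_erase hq)]
    linarith

/-- A pivot in one block is a pivot in the product. -/
theorem pivot_upd {P : Set (Fin n → ℝ)} {c : Fin n → ℝ} {x : Fin (k * n) → ℝ} {p : Fin k}
    {y : Fin n → ℝ} (hx : ∀ p, blk x p ∈ P.extremePoints ℝ) (h : Pivot P c (blk x p) y) :
    Pivot (big k P) (mk fun _ => c) x (upd x p y) := by
  obtain ⟨-, hy, hseg, hlt⟩ := h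
  have hothers : ∀ q, q ≠ p → blk x q = blk (upd x p y) q := fun q hq => by
    rw [blk_upd_ne _ _ hq]
  have hyext : ∀ q, blk (upd x p y) q ∈ P.extremePoints ℝ := by
    intro q
    by_cases hq : q = p
    · subst hq; rwa [blk_upd_self]
    · rw [blk_upd_ne _ _ hq]; exact hx q
  refine ⟨extreme_of_blk hx, extreme_of_blk hyext, ⟨?_, ?_⟩, ?_⟩
  · intro z hz q
    by_cases hq : q = p
    · subst hq
      have := segment_blk hz q
      rw [blk_upd_self] at this
      exact hseg.1 this
    · have := segment_blk hz q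
      rw [← hothers q hq, segment_same] at this
      rw [this]
      exact (hx q).1
  · intro a ha b hb z hz hzab
    have hzq : ∀ q, blk z q ∈ openSegment ℝ (blk a q) (blk b q) := by
      intro q
      obtain ⟨u, v, hu, hv, huv, rfl⟩ := hzab
      exact ⟨u, v, hu, hv, huv, rfl⟩
    apply segment_of_blk hothers
    · intro q hq
      have h1 := segment_blk hz q
      rw [← hothers q hq, segment_same] at h1
      have h1' : blk z q = blk x q := h1
      have h2 := hzq q
      rw [h1'] at h2
      exact ((mem_extremePoints.1 (hx q)).2 _ (ha q) _ (hb q) h2).1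
    · have h1 := segment_blk hz p
      rw [blk_upd_self] at h1 ⊢
      exact hseg.2 (ha p) (hb p) h1 (hzq p)
  · rw [dot_mk, dot_mk, ← Finset.add_sum_erase _ _ (Finset.mem_univ p),
      ← Finset.add_sum_erase Finset.univ (fun q => c ⬝ᵥ blk (upd x p y) q) (Finset.mem_univ p),
      blk_upd_self]
    have : ∑ q ∈ Finset.univ.erase p, c ⬝ᵥ blk x q =
        ∑ q ∈ Finset.univ.erase p, c ⬝ᵥ blk (upd x p y) q :=
      Finset.sum_congr rfl fun q hq => by rw [hothers q (Finset.ne_of_mem_erase hq)]
    linarith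

variable {N : ℕ} [NeZero N] {D : LPD} {T : List VC}

/-- Every run to a maximiser in the product of `k` copies has at least the total height many
steps. -/
theorem big_lower (hT : ∀ v ∈ T, vtxOK n N D T v = true) {X : ℕ → Fin (k * n) → ℝ} {L : ℕ}
    {v₀ : VC} (h0 : ∀ p, Good n N D T v₀ (blk (X 0) p))
    (hX : ∀ t < L, Pivot (big k (Poly (N := N) D.a D.b)) (mk fun _ => D.c) (X t) (X (t + 1)))
    (hmax : ∀ z ∈ big k (Poly (n := n) (N := N) D.a D.b),
      (mk fun _ => D.c) ⬝ᵥ z ≤ (mk fun _ => D.c) ⬝ᵥ X L) : k * v₀.h ≤ L := by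
  have key : ∀ t ≤ L, ∃ V : Fin k → VC, (∀ p, Good n N D T (V p) (blk (X t) p)) ∧
      k * v₀.h ≤ ∑ p, (V p).h + t := by
    intro t
    induction t with
    | zero => intro _; exact ⟨fun _ => v₀, h0, by simp⟩
    | succ t ih =>
      intro ht
      obtain ⟨V, hV, hs⟩ := ih (by omega)
      obtain ⟨p, hp, hpiv⟩ := pivot_blk (hX t (by omega))
      obtain ⟨w, hw, hh⟩ := (hV p).step hT hpiv
      refine ⟨Function.update V p w, fun q => ?_, ?_⟩
      · by_cases hq : q = p
        · subst hq; rwa [Function.update_self]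
        · rw [Function.update_of_ne hq, ← hp q hq]; exact hV q
      · rw [← Finset.add_sum_erase _ _ (Finset.mem_univ p), Function.update_self]
        rw [← Finset.add_sum_erase _ _ (Finset.mem_univ p)] at hs
        have : ∑ q ∈ Finset.univ.erase p, (Function.update V p w q).h =
            ∑ q ∈ Finset.univ.erase p, (V q).h :=
          Finset.sum_congr rfl fun q hq => by
            rw [Function.update_of_ne (Finset.ne_of_mem_erase hq)]
        omega
  obtain ⟨V, hV, hs⟩ := key L le_rfl
  have hz : ∀ p, (V p).h = 0 := by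
    intro p
    apply (hV p).h_eq_zero hT
    intro z hz
    have hmem : ∀ q, blk (X L) q ∈ Poly (n := n) (N := N) D.a D.b := fun q => by
      obtain ⟨-, -, h⟩ := hV q; exact h.mem
    have := hmax (upd (X L) p z) (upd_mem (P := Poly (n := n) (N := N) D.a D.b) hmem p hz)
    rw [dot_mk, dot_mk, ← Finset.add_sum_erase _ _ (Finset.mem_univ p),
      ← Finset.add_sum_erase Finset.univ (fun q => D.c ⬝ᵥ blk (X L) q) (Finset.mem_univ p),
      blk_upd_self] at this
    have h2 : ∑ q ∈ Finset.univ.erase p, D.c ⬝ᵥ blk (upd (X L) p z) q =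
        ∑ q ∈ Finset.univ.erase p, (D.c : Fin n → ℝ) ⬝ᵥ blk (X L) q :=
      Finset.sum_congr rfl fun q hq => by rw [blk_upd_ne _ _ (Finset.ne_of_mem_erase hq)]
    linarith
  simp only [hz, Finset.sum_const_zero, zero_add] at hs
  exact hs

/-- There is a run to a maximiser with the total height many steps. -/
theorem big_upper (hT : ∀ v ∈ T, vtxOK n N D T v = true) :
    ∀ (L : ℕ) (x : Fin (k * n) → ℝ) (V : Fin k → VC), (∀ p, Good n N D T (V p) (blk x p)) →
      ∑ p, (V p).h = L → ∃ X : ℕ → Fin (k * n) → ℝ, X 0 = x ∧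
        (∀ t < L, Pivot (big k (Poly (N := N) D.a D.b)) (mk fun _ => D.c) (X t) (X (t + 1))) ∧
        ∀ z ∈ big k (Poly (n := n) (N := N) D.a D.b),
          (mk fun _ => D.c) ⬝ᵥ z ≤ (mk fun _ => D.c) ⬝ᵥ X L := by
  intro L
  induction L with
  | zero =>
    intro x V hV hs
    refine ⟨fun _ => x, rfl, fun t ht => absurd ht (Nat.not_lt_zero t), fun z hz => ?_⟩
    rw [dot_mk, dot_mk]
    apply Finset.sum_le_sum
    intro p _
    apply (hV p).max hT _ _ (hz p)
    exact (Finset.sum_eq_zero_iff.1 hs) p (Finset.mem_univ p)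
  | succ L ih =>
    intro x V hV hs
    obtain ⟨p, hp⟩ : ∃ p, (V p).h ≠ 0 := by
      by_contra hcon
      push Not at hcon
      simp [hcon] at hs
    obtain ⟨w, y, hw, hh, hpiv⟩ := (hV p).exists_step hT hp
    have hext : ∀ q, blk x q ∈ (Poly (n := n) (N := N) D.a D.b).extremePoints ℝ := fun q => by
      obtain ⟨-, -, h⟩ := hV q; exact h.extreme
    have hstep := pivot_upd (k := k) (p := p) hext hpiv
    obtain ⟨X, hX0, hX, hXmax⟩ := ih (upd x p y) (Function.update V p w) (fun q => by
      by_cases hq : q = p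
      · subst hq; rwa [Function.update_self, blk_upd_self]
      · rw [Function.update_of_ne hq, blk_upd_ne _ _ hq]; exact hV q) (by
      rw [← Finset.add_sum_erase _ _ (Finset.mem_univ p), Function.update_self]
      rw [← Finset.add_sum_erase _ _ (Finset.mem_univ p)] at hs
      have : ∑ q ∈ Finset.univ.erase p, (Function.update V p w q).h =
          ∑ q ∈ Finset.univ.erase p, (V q).h :=
        Finset.sum_congr rfl fun q hq => by
          rw [Function.update_of_ne (Finset.ne_of_mem_erase hq)]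
      omega)
    refine ⟨fun t => Nat.casesOn t x X, rfl, ?_, hXmax⟩
    intro t ht
    cases t with
    | zero => simpa [hX0] using hstep
    | succ t => exact hX t (by omega)

end Pool.Agent.H38.Mono
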