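import Mathlib
import Pool.Agent.H38.MonoC

/-!
# Linear programs `max c x`, `A x ≤ b`, `x ≥ 0` and their block diagonal copies
-/

namespace Pool.Agent.H38.Mono

open Set

/-- The feasible region `{x | A x ≤ b, x ≥ 0}` of a linear program with integer data. -/
def feasible {m n : ℕ} (A : Matrix (Fin m) (Fin n) ℤ) (b : Fin m → ℤ) : Set (Fin n → ℝ) :=
  {x | (∀ j, 0 ≤ x j) ∧ ∀ i, ∑ j, (A i j : ℝ) * x j ≤ (b i : ℝ)}

/-- The block diagonal matrix with `k` copies of `A`. -/
def bigA (k : ℕ) {m n : ℕ} (A : Matrix (Fin m) (Fin n) ℤ) : Matrix (Fin (k * m)) (Fin (k * n)) ℤ :=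
  fun i j => if (finProdFinEquiv.symm i).1 = (finProdFinEquiv.symm j).1 then
    A (finProdFinEquiv.symm i).2 (finProdFinEquiv.symm j).2 else 0

/-- `k` copies of a vector. -/
def bigv (k : ℕ) {m : ℕ} (b : Fin m → ℤ) : Fin (k * m) → ℤ := fun i => b (finProdFinEquiv.symm i).2

theorem feasible_big (k : ℕ) {m n : ℕ} (A : Matrix (Fin m) (Fin n) ℤ) (b : Fin m → ℤ) :
    feasible (bigA k A) (bigv k b) = big k (feasible A b) := by
  have key : ∀ (x : Fin (k * n) → ℝ) (p : Fin k) (i : Fin m),
      ∑ j, (bigA k A (finProdFinEquiv (p, i)) j : ℝ) * x j = ∑ j, (A i j : ℝ) * blk x p j := by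
    intro x p i
    rw [← finProdFinEquiv.sum_comp, Fintype.sum_prod_type, Finset.sum_eq_single p]
    · apply Finset.sum_congr rfl
      intro j _
      simp [bigA, blk]
    · intro q _ hq
      apply Finset.sum_eq_zero
      intro j _
      simp [bigA, Ne.symm hq]
    · intro h; exact absurd (Finset.mem_univ p) h
  ext x
  constructor
  · rintro ⟨h1, h2⟩ p
    refine ⟨fun j => h1 _, fun i => ?_⟩
    have := h2 (finProdFinEquiv (p, i))
    rw [key] at this
    simpa [bigv] using this
  · intro h
    refine ⟨fun j => ?_, fun i => ?_⟩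
    · have := (h (finProdFinEquiv.symm j).1).1 (finProdFinEquiv.symm j).2
      simpa only [blk, Prod.mk.eta, Equiv.apply_symm_apply] using this
    · have := (h (finProdFinEquiv.symm i).1).2 (finProdFinEquiv.symm i).2
      rw [← key, Prod.mk.eta, Equiv.apply_symm_apply] at this
      exact this

/-- The rows of `x ≥ 0`. -/
def negI (n : ℕ) : List (List ℤ) :=
  (List.range n).map fun i => (List.range n).map fun j => if j = i then -1 else 0

/-- The data of the linear program `max c x`, `A x ≤ b`, `x ≥ 0`. -/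
def mkD (n : ℕ) (rows : List (List ℤ)) (rhs cost : List ℤ) : LPD :=
  ⟨negI n ++ rows, List.replicate n 0 ++ rhs, cost⟩

/-- The matrix with given rows. -/
def matL (m n : ℕ) (rows : List (List ℤ)) : Matrix (Fin m) (Fin n) ℤ :=
  fun i j => (rows.getD i []).getD j 0

/-- The vector with given entries. -/
def vecL (m : ℕ) (rhs : List ℤ) : Fin m → ℤ := fun i => rhs.getD i 0

theorem poly_eq (n m : ℕ) (rows : List (List ℤ)) (rhs cost : List ℤ) :
    Poly (n := n) (N := n + m) (mkD n rows rhs cost).a (mkD n rows rhs cost).b =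
      feasible (matL m n rows) (vecL m rhs) := by
  have hlen : (negI n).length = n := by simp [negI]
  have e1 : ∀ (j : Fin n) (x : Fin n → ℝ),
      (mkD n rows rhs cost).a (Fin.castAdd m j) ⬝ᵥ x = - x j := by
    intro j x
    simp only [dotProduct, LPD.a, mkD, Fin.val_castAdd]
    rw [Finset.sum_eq_single j]
    · rw [List.getD_append _ _ _ _ (by rw [hlen]; exact j.2)]
      simp [negI, List.getD_eq_getElem?_getD, j.2]
    · intro q _ hq
      rw [List.getD_append _ _ _ _ (by rw [hlen]; exact j.2)]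
      have : (q : ℕ) ≠ j := fun h => hq (Fin.ext h)
      simp [negI, List.getD_eq_getElem?_getD, j.2, q.2, this]
    · intro h; exact absurd (Finset.mem_univ j) h
  have e2 : ∀ j : Fin n, (mkD n rows rhs cost).b (Fin.castAdd m j) = 0 := by
    intro j
    simp only [LPD.b, mkD, Fin.val_castAdd]
    rw [List.getD_append _ _ _ _ (by simp)]
    simp [List.getD_eq_getElem?_getD, j.2]
  have e3 : ∀ (i : Fin m) (x : Fin n → ℝ),
      (mkD n rows rhs cost).a (Fin.natAdd n i) ⬝ᵥ x = ∑ j, (matL m n rows i j : ℝ) * x j := by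
    intro i x
    simp only [dotProduct, LPD.a, mkD, Fin.val_natAdd, matL]
    rw [List.getD_append_right _ _ _ _ (by rw [hlen]; omega), hlen, Nat.add_sub_cancel_left]
  have e4 : ∀ i : Fin m, (mkD n rows rhs cost).b (Fin.natAdd n i) = (vecL m rhs i : ℝ) := by
    intro i
    simp only [LPD.b, mkD, Fin.val_natAdd, vecL]
    rw [List.getD_append_right _ _ _ _ (by simp), List.length_replicate, Nat.add_sub_cancel_left]
  ext x
  constructor
  · intro h
    refine ⟨fun j => ?_, fun i => ?_⟩
    · have := h (Fin.castAdd m j)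
      rw [e1, e2] at this
      linarith
    · have := h (Fin.natAdd n i)
      rwa [e3, e4] at this
  · rintro ⟨h1, h2⟩ i
    induction i using Fin.addCases with
    | left j => rw [e1, e2]; linarith [h1 j]
    | right i => rw [e3, e4]; exact h2 i

/-- A nonnegative combination of the rows which is at least one in every coordinate bounds the
feasible region. -/
theorem bounded_of {m n : ℕ} (k : ℕ) (A : Matrix (Fin m) (Fin n) ℤ) (b : Fin m → ℤ)
    (y : Fin m → ℤ) (hy : ∀ i, 0 ≤ y i) (hA : ∀ j, 1 ≤ ∑ i, y i * A i j) :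
    Bornology.IsBounded (big k (feasible A b)) := by
  have hx : ∀ x ∈ feasible A b, ∀ j, x j ≤ ∑ i, (y i : ℝ) * b i := by
    rintro x ⟨h1, h2⟩ j
    have h3 : x j ≤ ∑ j, (∑ i, (y i : ℝ) * A i j) * x j := by
      have h4 : x j ≤ (∑ i, (y i : ℝ) * A i j) * x j := by
        have : (1 : ℝ) ≤ ∑ i, (y i : ℝ) * A i j := by exact_mod_cast hA j
        nlinarith [h1 j]
      refine h4.trans (Finset.single_le_sum (f := fun j => (∑ i, (y i : ℝ) * A i j) * x j) ?_
        (Finset.mem_univ j))
      intro j _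
      have : (1 : ℝ) ≤ ∑ i, (y i : ℝ) * A i j := by exact_mod_cast hA j
      exact mul_nonneg (by linarith) (h1 j)
    refine h3.trans ?_
    have h5 : ∑ j, (∑ i, (y i : ℝ) * A i j) * x j = ∑ i, (y i : ℝ) * ∑ j, (A i j : ℝ) * x j := by
      simp_rw [Finset.sum_mul, Finset.mul_sum]
      rw [Finset.sum_comm]
      apply Finset.sum_congr rfl; intro i _
      apply Finset.sum_congr rfl; intro j _
      ring
    rw [h5]
    apply Finset.sum_le_sum
    intro i _
    exact mul_le_mul_of_nonneg_left (h2 i) (by exact_mod_cast hy i)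
  apply (Metric.isBounded_Icc (fun _ : Fin (k * n) => (0 : ℝ))
    (fun _ => ∑ i, (y i : ℝ) * b i)).subset
  intro x hx'
  constructor
  · intro i
    have := (hx' (finProdFinEquiv.symm i).1).1 (finProdFinEquiv.symm i).2
    simpa only [blk, Prod.mk.eta, Equiv.apply_symm_apply] using this
  · intro i
    have := hx _ (hx' (finProdFinEquiv.symm i).1) (finProdFinEquiv.symm i).2
    simpa only [blk, Prod.mk.eta, Equiv.apply_symm_apply] using this

theorem cost_eq (k n : ℕ) (rows : List (List ℤ)) (rhs cost : List ℤ) (x : Fin (k * n) → ℝ) :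
    (mk fun _ : Fin k => ((mkD n rows rhs cost).c : Fin n → ℝ)) ⬝ᵥ x =
      ∑ j, (bigv k (vecL n cost) j : ℝ) * x j := by
  simp only [dotProduct, mk, LPD.c, mkD, bigv, vecL]

end Pool.Agent.H38.Mono
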