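import Mathlib
import Pool.Agent.H38.MonoD

/-!
# The start vertex and the final statement for a certified linear program
-/

namespace Pool.Agent.H38.Mono

open Set

theorem a_castAdd (n m : ℕ) (rows : List (List ℤ)) (rhs cost : List ℤ) (j : Fin n)
    (x : Fin n → ℝ) : (mkD n rows rhs cost).a (Fin.castAdd m j) ⬝ᵥ x = - x j := by
  have hlen : (negI n).length = n := by simp [negI]
  simp only [dotProduct, LPD.a, mkD, Fin.val_castAdd]
  rw [Finset.sum_eq_single j]
  · rw [List.getD_append _ _ _ _ (by rw [hlen]; exact j.2)]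
    simp [negI, List.getD_eq_getElem?_getD, j.2]
  · intro q _ hq
    rw [List.getD_append _ _ _ _ (by rw [hlen]; exact j.2)]
    have : (q : ℕ) ≠ j := fun h => hq (Fin.ext h)
    simp [negI, List.getD_eq_getElem?_getD, j.2, q.2, this]
  · intro h; exact absurd (Finset.mem_univ j) h

/-- The origin is a state of the certificate when its entry has tight rows `0, …, n - 1`. -/
theorem good_root (n m : ℕ) [NeZero (n + m)] (rows : List (List ℤ)) (rhs cost : List ℤ)
    {T : List VC} (hT : ∀ v ∈ T, vtxOK n (n + m) (mkD n rows rhs cost) T v = true) {v₀ : VC}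
    (hmem : v₀ ∈ T) (hs : v₀.s = List.range n) (hnum : v₀.num = List.replicate n 0) :
    Good n (n + m) (mkD n rows rhs cost) T v₀ 0 := by
  have hp : VC.Props n (n + m) (mkD n rows rhs cost) T v₀ := props_of_ok (hT v₀ hmem)
  have hpt : (v₀.pt : Fin n → ℝ) = 0 := by
    funext j
    simp [VC.pt, hnum, List.getD_eq_getElem?_getD]
  refine ⟨hmem, hpt.symm, ?_⟩
  rw [← hpt]
  apply vtx_of hp
  intro d hd
  funext j
  have h1 := hd j
  have h2 : (v₀.sF j : Fin (n + m)) = Fin.castAdd m j := by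
    apply Fin.ext
    rw [hp.sF_val, hs]
    simp [List.getD_eq_getElem?_getD]
  rw [h2, a_castAdd] at h1
  simpa using h1

/-- The lengths of the runs of the simplex method for `k` copies of a certified program. -/
theorem main (n m k : ℕ) [NeZero (n + m)] (rows : List (List ℤ)) (rhs cost : List ℤ)
    {T : List VC} (hT : ∀ v ∈ T, vtxOK n (n + m) (mkD n rows rhs cost) T v = true) {v₀ : VC}
    (hmem : v₀ ∈ T) (hs : v₀.s = List.range n) (hnum : v₀.num = List.replicate n 0) :
    (0 : Fin (k * n) → ℝ) ∈ (feasible (bigA k (matL m n rows)) (bigv k (vecL m rhs))).extremePoints ℝ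
    ∧ (∀ (N : ℕ) (x : ℕ → Fin (k * n) → ℝ), x 0 = 0 →
      (∀ t < N, Pivot (feasible (bigA k (matL m n rows)) (bigv k (vecL m rhs)))
        (fun j => (bigv k (vecL n cost) j : ℝ)) (x t) (x (t + 1))) →
      (∀ z ∈ feasible (bigA k (matL m n rows)) (bigv k (vecL m rhs)),
        (fun j => (bigv k (vecL n cost) j : ℝ)) ⬝ᵥ z ≤
          (fun j => (bigv k (vecL n cost) j : ℝ)) ⬝ᵥ x N) → k * v₀.h ≤ N) ∧
    ∃ x : ℕ → Fin (k * n) → ℝ, x 0 = 0 ∧
      (∀ t < k * v₀.h, Pivot (feasible (bigA k (matL m n rows)) (bigv k (vecL m rhs)))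
        (fun j => (bigv k (vecL n cost) j : ℝ)) (x t) (x (t + 1))) ∧
      (∀ z ∈ feasible (bigA k (matL m n rows)) (bigv k (vecL m rhs)),
        (fun j => (bigv k (vecL n cost) j : ℝ)) ⬝ᵥ z ≤
          (fun j => (bigv k (vecL n cost) j : ℝ)) ⬝ᵥ x (k * v₀.h)) := by
  have hroot := good_root n m rows rhs cost hT hmem hs hnum
  have hc : (fun j => (bigv k (vecL n cost) j : ℝ)) =
      (mk fun _ : Fin k => ((mkD n rows rhs cost).c : Fin n → ℝ)) := rfl
  rw [hc, feasible_big, ← poly_eq n m rows rhs cost]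
  refine ⟨?_, ?_, ?_⟩
  · apply extreme_of_blk
    intro p
    exact hroot.2.2.extreme
  · intro N x hx0 hx hmax
    apply big_lower hT (X := x) (L := N) (v₀ := v₀) _ hx hmax
    intro p
    rw [hx0]
    exact hroot
  · obtain ⟨X, hX0, hX, hXm⟩ := big_upper hT (k := k) (k * v₀.h) 0 (fun _ => v₀)
      (fun p => hroot) (by simp)
    exact ⟨X, hX0, hX, hXm⟩

end Pool.Agent.H38.Mono
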